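import Pool.Agent.Helper63.DP.Num
set_option autoImplicit false

/-!
# The graph form of the log-rank conjecture for graphs with low-degree neighbourhoods

A finite abelian group `A` acts on the vertices of a graph `G` (by arbitrary permutations), and
the neighbourhoods are regarded as functions with values in `ZMod m`. If all their `D`-fold
differences take few values modulo functions of degree at most one, then the chromatic number is
quasi-polynomially bounded in the rank.
-/

namespace Pool.Agent.Results.MP_3bd889_lc.LowDegreeNeighbourhoods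

open Pool.Agent.Helper63.DP

section
variable {A V K : Type} [AddCommGroup A] [AddAction A V] [AddCommGroup K]

/-- The difference `f (a + v) - f v` of a function on `V` in direction `a`. -/
def Delta (a : A) (f : V → K) : V → K := fun v => f (a +ᵥ v) - f v

/-- Iterated differences, in the directions of the list `l`. -/
def Deltas : List A → (V → K) → (V → K)
  | [], f => f
  | a :: l, f => Deltas l (Delta a f)

theorem dif_comp (a : A) (f : V → K) (v0 : V) :
    dif a (fun x : A => f (x +ᵥ v0)) = fun x => Delta a f (x +ᵥ v0) := by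
  funext x
  simp only [dif, Delta, add_vadd]

theorem difs_comp (l : List A) : ∀ (f : V → K) (v0 : V),
    difs l (fun x : A => f (x +ᵥ v0)) = fun x => Deltas l f (x +ᵥ v0) := by
  induction l with
  | nil => intro f v0; rfl
  | cons a l ih =>
    intro f v0
    show difs l (dif a (fun x : A => f (x +ᵥ v0))) = fun x => Deltas l (Delta a f) (x +ᵥ v0)
    rw [dif_comp, ih]

end

/-- The number of colours. -/
theorem colorable {n : ℕ} (G : SimpleGraph (Fin n)) [DecidableRel G.Adj]
    (A : Type) [AddCommGroup A] [Finite A] [AddAction A (Fin n)] (D m R : ℕ) (hm : 2 ≤ m)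
    (hyp : ∀ l : List A, l.length = D → ∃ H : Fin R → (Fin n → ZMod m), ∀ y : Fin n,
      ∃ j : Fin R, ∀ b c : A, ∀ v ∈ AddAction.orbit A y,
        Delta b (Delta c (Deltas l (fun u => if G.Adj y u then (1 : ZMod m) else 0) - H j)) v = 0) :
    G.Colorable (Nat.card (AddAction.orbitRel.Quotient A (Fin n)) *
      bd D m R ((G.adjMatrix ℝ).rank + 1)) := by
  classical
  have : NeZero m := ⟨by omega⟩
  have : Fact (1 < m) := ⟨by omega⟩
  set r := (G.adjMatrix ℝ).rank with hr
  let Q := AddAction.orbitRel.Quotient A (Fin n)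
  let _ : Fintype Q := Fintype.ofFinite _
  let _ : Fintype A := Fintype.ofFinite _
  let f : Fin n → Fin n → ZMod m := fun y u => if G.Adj y u then (1 : ZMod m) else 0
  let base : Q → Fin n := fun q => Quotient.out q
  have hbase : ∀ v : Fin n, ∃ a : A, a +ᵥ base (Quotient.mk'' v) = v := by
    intro v
    have h1 : AddAction.orbitRel A (Fin n) v (base (Quotient.mk'' v)) :=
      (AddAction.orbitRel A (Fin n)).symm (Quotient.mk_out (s := AddAction.orbitRel A (Fin n)) v)
    rw [AddAction.orbitRel_apply] at h1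
    exact h1
  -- the family attached to an orbit
  let F : Q → A → A → ZMod m := fun q y x => f (y +ᵥ base q) (x +ᵥ base q)
  have hLR : ∀ q, LR (F q) (r + 1) := by
    intro q c
    have h0 : FR (fun x y => ((G.adjMatrix ℝ x y : ℝ) : ℂ)) r := FR.of_rank _
    have h1 : FR (fun (x : A) (y : A) => ((G.adjMatrix ℝ (x +ᵥ base q) (y +ᵥ base q) : ℝ) : ℂ)) r :=
      h0.comp (fun x : A => x +ᵥ base q) (fun y : A => y +ᵥ base q)
    have hsymm : ∀ x y : A, ((G.adjMatrix ℝ (x +ᵥ base q) (y +ᵥ base q) : ℝ) : ℂ) =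
        if G.Adj (y +ᵥ base q) (x +ᵥ base q) then 1 else 0 := by
      intro x y
      rw [SimpleGraph.adjMatrix_apply]
      by_cases h : G.Adj (y +ᵥ base q) (x +ᵥ base q)
      · rw [if_pos h, if_pos h.symm]; simp
      · rw [if_neg h, if_neg (fun h' => h h'.symm)]; simp
    by_cases hc1 : c = 1
    · refine (h1.mono (Nat.le_succ r)).congr fun x y => ?_
      rw [hsymm]
      show (if (if G.Adj (y +ᵥ base q) (x +ᵥ base q) then (1 : ZMod m) else 0) = c then (1 : ℂ)
        else 0) = _
      by_cases h : G.Adj (y +ᵥ base q) (x +ᵥ base q)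
      · rw [if_pos h, if_pos h, if_pos hc1.symm]
      · rw [if_neg h, if_neg h, if_neg]
        rw [hc1]; exact zero_ne_one
    · by_cases hc0 : c = 0
      · have h2 : FR (fun (x : A) (y : A) => (-1 : ℂ) *
            ((G.adjMatrix ℝ (x +ᵥ base q) (y +ᵥ base q) : ℝ) : ℂ)) r := h1.mul_row (fun _ => -1)
        have h3 : FR (fun (_ : A) (_ : A) => (1 : ℂ)) 1 :=
          ⟨fun _ _ => 1, fun _ _ => 1, fun x y => by simp⟩
        refine (h2.add h3).congr fun x y => ?_
        rw [hsymm]
        show (if (if G.Adj (y +ᵥ base q) (x +ᵥ base q) then (1 : ZMod m) else 0) = c then (1 : ℂ)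
          else 0) = _
        by_cases h : G.Adj (y +ᵥ base q) (x +ᵥ base q)
        · rw [if_pos h, if_pos h, if_neg]
          · ring
          · rw [hc0]; exact one_ne_zero
        · rw [if_neg h, if_neg h, if_pos hc0.symm]
          ring
      · refine (FR.zero (r + 1)).congr fun x y => ?_
        show (if (if G.Adj (y +ᵥ base q) (x +ᵥ base q) then (1 : ZMod m) else 0) = c then (1 : ℂ)
          else 0) = _
        by_cases h : G.Adj (y +ᵥ base q) (x +ᵥ base q)
        · rw [if_pos h, if_neg (fun h => hc1 h.symm)]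
        · rw [if_neg h, if_neg (fun h => hc0 h.symm)]
  have hCl : ∀ q, Cl D R (F q) := by
    intro q l hl
    obtain ⟨H, hH⟩ := hyp l hl
    refine ⟨fun j x => H j (x +ᵥ base q), fun y => ?_⟩
    obtain ⟨j, hj⟩ := hH (y +ᵥ base q)
    refine ⟨j, fun b c => ?_⟩
    have e1 : difs l (F q y) - (fun x : A => H j (x +ᵥ base q)) =
        fun x : A => (Deltas l (f (y +ᵥ base q)) - H j) (x +ᵥ base q) := by
      rw [show F q y = fun x : A => f (y +ᵥ base q) (x +ᵥ base q) from rfl, difs_comp]
      rfl
    rw [e1, dif_comp, dif_comp]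
    funext x
    apply hj b c
    refine ⟨x - y, ?_⟩
    show (x - y) +ᵥ (y +ᵥ base q) = x +ᵥ base q
    rw [← add_vadd, sub_add_cancel]
  have hnv : ∀ q, nv (F q) ≤ bd D m R (r + 1) := fun q => nv_le_bd D (F q) (r + 1) R (hLR q) (hCl q)
  -- the colouring
  let col : Fin n → Q × (A → ZMod m) := fun v =>
    ((Quotient.mk'' v : Q), fun x => f v (x +ᵥ base (Quotient.mk'' v)))
  have hcard : (Finset.univ.image col).card ≤ Nat.card Q * bd D m R (r + 1) := by
    have hsub : Finset.univ.image col ⊆
        Finset.univ.biUnion (fun q : Q => (Finset.univ.image (F q)).image (fun g => (q, g))) := by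
      intro z hz
      obtain ⟨v, _, rfl⟩ := Finset.mem_image.1 hz
      rw [Finset.mem_biUnion]
      refine ⟨(Quotient.mk'' v : Q), Finset.mem_univ _, ?_⟩
      rw [Finset.mem_image]
      refine ⟨fun x => f v (x +ᵥ base (Quotient.mk'' v)), ?_, rfl⟩
      rw [Finset.mem_image]
      obtain ⟨a, ha⟩ := hbase v
      refine ⟨a, Finset.mem_univ _, ?_⟩
      funext x
      show f (a +ᵥ base (Quotient.mk'' v)) (x +ᵥ base (Quotient.mk'' v)) = _
      rw [ha]
    calc (Finset.univ.image col).card ≤ _ := Finset.card_le_card hsub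
      _ ≤ ∑ q : Q, ((Finset.univ.image (F q)).image (fun g => (q, g))).card :=
        Finset.card_biUnion_le
      _ ≤ ∑ _q : Q, bd D m R (r + 1) := by
        refine Finset.sum_le_sum fun q _ => Finset.card_image_le.trans ?_
        rw [← nv_eq]
        exact hnv q
      _ = Nat.card Q * bd D m R (r + 1) := by
        rw [Finset.sum_const, Finset.card_univ, smul_eq_mul, Nat.card_eq_fintype_card]
  let C : G.Coloring {z // z ∈ Finset.univ.image col} := SimpleGraph.Coloring.mk
    (fun v => ⟨col v, Finset.mem_image_of_mem _ (Finset.mem_univ v)⟩) (by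
      intro v v' hadj heq
      have h1 : col v = col v' := congrArg Subtype.val heq
      have hq : (Quotient.mk'' v : Q) = Quotient.mk'' v' := congrArg Prod.fst h1
      have hf : (fun x : A => f v (x +ᵥ base (Quotient.mk'' v))) =
          fun x : A => f v' (x +ᵥ base (Quotient.mk'' v')) := congrArg Prod.snd h1
      obtain ⟨a, ha⟩ := hbase v'
      have h2 := congrFun hf a
      rw [hq, ha] at h2
      simp only [f, if_pos hadj, SimpleGraph.irrefl, if_false] at h2
      exact one_ne_zero h2)
  have h3 := C.colorable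
  rw [Fintype.card_coe] at h3
  exact h3.mono hcard

/-- Log-rank bound for graphs whose neighbourhoods have few `D`-fold differences modulo functions
of degree at most one. -/
theorem result (D : ℕ) : ∃ C : ℝ, 0 < C ∧ ∀ (n : ℕ) (G : SimpleGraph (Fin n))
    [DecidableRel G.Adj] (A : Type) [AddCommGroup A] [Finite A] [AddAction A (Fin n)] (m R : ℕ),
    2 ≤ m → 1 ≤ R → 1 < (G.adjMatrix ℝ).rank →
    (∀ l : List A, l.length = D → ∃ H : Fin R → (Fin n → ZMod m), ∀ y : Fin n, ∃ j : Fin R,
      ∀ b c : A, ∀ v ∈ AddAction.orbit A y,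
        Delta b (Delta c (Deltas l (fun u => if G.Adj y u then (1 : ZMod m) else 0) - H j)) v = 0) →
    Real.log (G.chromaticNumber.toNat : ℝ) ≤
      Real.log (Nat.card (AddAction.orbitRel.Quotient A (Fin n)) : ℝ) +
        C * (Real.log (m * R * ((G.adjMatrix ℝ).rank : ℝ))) ^ (2 ^ D) := by
  obtain ⟨c, hc1, hc⟩ := log_bd D
  have hl2 : 0 < Real.log 2 := Real.log_pos (by norm_num)
  refine ⟨c * (2 / Real.log 2) ^ (2 ^ D), by positivity, ?_⟩
  intro n G _ A _ _ _ m R hm hR hrank hyp
  set r := (G.adjMatrix ℝ).rank with hr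
  have hm' : (2 : ℝ) ≤ m := by exact_mod_cast hm
  have hR' : (1 : ℝ) ≤ R := by exact_mod_cast hR
  have hr' : (2 : ℝ) ≤ r := by exact_mod_cast hrank
  have hcol := colorable G A D m R hm hyp
  rw [← hr] at hcol
  set w := Nat.card (AddAction.orbitRel.Quotient A (Fin n)) with hw
  set b := bd D m R (r + 1) with hb
  have hbpos : 0 < b := bd_pos D (by omega) (by omega) (by omega)
  have hn : 0 < n := by
    by_contra h0
    have hn0 : n = 0 := by omega
    have h1 : r ≤ n := by
      rw [hr]
      exact (Matrix.rank_le_card_width _).trans (by simp)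
    omega
  have hwpos : 0 < w := by
    rw [hw, Nat.card_pos_iff]
    exact ⟨⟨Quotient.mk'' (⟨0, hn⟩ : Fin n)⟩, inferInstance⟩
  have hchi : G.chromaticNumber.toNat ≤ w * b :=
    ENat.toNat_le_of_le_natCast hcol.chromaticNumber_le
  have h1 : Real.log (G.chromaticNumber.toNat : ℝ) ≤ Real.log ((w * b : ℕ) : ℝ) := by
    have hwb : (1 : ℝ) ≤ ((w * b : ℕ) : ℝ) := by exact_mod_cast Nat.mul_pos hwpos hbpos
    rcases Nat.eq_zero_or_pos G.chromaticNumber.toNat with h0 | h0
    · rw [h0, Nat.cast_zero, Real.log_zero]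
      exact Real.log_nonneg hwb
    · exact Real.log_le_log (by exact_mod_cast h0) (by exact_mod_cast hchi)
  have h2 : Real.log ((w * b : ℕ) : ℝ) = Real.log w + Real.log b := by
    push_cast
    exact Real.log_mul (by positivity) (by positivity)
  have h3 : Real.log b ≤ c * (Real.log (m * R * ((r + 1 : ℕ) : ℝ)) / Real.log 2) ^ (2 ^ D) :=
    hc hm hR (by omega)
  have h4 : Real.log (m * R * ((r + 1 : ℕ) : ℝ)) ≤ 2 * Real.log (m * R * (r : ℝ)) := by
    have e : 2 * Real.log ((m : ℝ) * R * r) = Real.log (((m : ℝ) * R * r) ^ 2) := by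
      rw [Real.log_pow]; norm_num
    rw [e]
    refine Real.log_le_log (by positivity) ?_
    have h5 : ((r + 1 : ℕ) : ℝ) ≤ (r : ℝ) ^ 2 := by push_cast; nlinarith
    calc (m : ℝ) * R * ((r + 1 : ℕ) : ℝ) ≤ (m : ℝ) * R * (r : ℝ) ^ 2 := by gcongr
      _ = ((m : ℝ) * 1) * (R * 1) * (r : ℝ) ^ 2 := by ring
      _ ≤ ((m : ℝ) * m) * (R * R) * (r : ℝ) ^ 2 := by
        have : (1 : ℝ) ≤ m := by linarith
        gcongr
      _ = ((m : ℝ) * R * r) ^ 2 := by ring
  have h6 : 0 ≤ Real.log (m * R * ((r + 1 : ℕ) : ℝ)) := by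
    refine Real.log_nonneg ?_
    have : (1 : ℝ) ≤ ((r + 1 : ℕ) : ℝ) := by push_cast; linarith
    calc (1 : ℝ) = 1 * 1 * 1 := by norm_num
      _ ≤ (m : ℝ) * R * ((r + 1 : ℕ) : ℝ) := by
        have : (1 : ℝ) ≤ m := by linarith
        gcongr
  calc Real.log (G.chromaticNumber.toNat : ℝ) ≤ Real.log w + Real.log b := h1.trans h2.le
    _ ≤ Real.log w + c * (Real.log (m * R * ((r + 1 : ℕ) : ℝ)) / Real.log 2) ^ (2 ^ D) := by
      linarith
    _ ≤ Real.log w + c * (2 * Real.log (m * R * (r : ℝ)) / Real.log 2) ^ (2 ^ D) := by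
      gcongr
    _ = Real.log w + c * (2 / Real.log 2) ^ (2 ^ D) * (Real.log (m * R * (r : ℝ))) ^ (2 ^ D) := by
      rw [show 2 * Real.log (m * R * (r : ℝ)) / Real.log 2 =
        2 / Real.log 2 * Real.log (m * R * (r : ℝ)) by ring, mul_pow]
      ring

end Pool.Agent.Results.MP_3bd889_lc.LowDegreeNeighbourhoods
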